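import Pool.Agent.Lib.MP_60b600_ag.Family
import Pool.Agent.Lib.MP_60b600_ag.Zariski

set_option autoImplicit false

namespace Pool.Agent.Results.MP_60b600_ag.MaxRankLocusNotLocallyClosed

open Pool.Agent.Lib.MP_60b600_ag

universe u

/-- Over every algebraically closed field `K` there is a family of polynomials of degree exactly
three in nine variables, parametrized by the affine plane `K²` (with regular functions as
coefficients), such that all Schmidt ranks are at most four and the locus of maximal Schmidt rank
is not locally closed in the Zariski topology of `K²`. -/
theorem result (K : Type u) [Field K] [IsAlgClosed K] :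
    ∃ P : MvPolynomial (Fin 9) (MvPolynomial (Fin 2) K),
      (∀ s, (member P s).totalDegree = 3) ∧
      (∀ s, HasDecomp (member P s) 4) ∧
      ¬ @IsLocallyClosed _ (zariski K 2) (maxRankLocus P) := by
  have : Infinite K := IsAlgClosed.instInfinite
  refine ⟨fam K, totalDegree_member, hasDecomp_four, ?_⟩
  rw [maxRankLocus_fam]
  exact not_locallyClosed

end Pool.Agent.Results.MP_60b600_ag.MaxRankLocusNotLocallyClosed
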